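import Pool.Agent.R974.LC.Fin
set_option autoImplicit false

/-!
# The conjecture on the largest common subtree is false when the two offspring laws are equal

Let `μ` be a critical offspring law with `μ [k, ∞) ~ c k ^ (-α)`, `1 < α < 2`, and let `τ`, `τ'` be
two independent Bienaymé trees with offspring law `μ`, both conditioned to have `n` vertices. Then
`LCS (τ, τ') / min (D, D')` tends to infinity in probability along all `n` for which
`P (|τ| = n)` is at least `n ^ (-K)` (`K` is any fixed number, and there are infinitely many such `n`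
when `K = 3`). In particular `LCS (τ, τ') / min (D, D')` is not tight.

The reason is that most of the children of the two hubs can be matched so that the subtrees of
matched children are isomorphic, and a critical Bienaymé tree has an infinite mean size.
-/

namespace Pool.Agent.Results.MP_8702f5_pr.SameLaw

open MeasureTheory Filter Topology
open Pool.Agent.R974.LC Pool.Agent.R974.LC.PT
open scoped ENNReal

/-- The law of two independent Bienaymé trees with offspring law `μ`, both conditioned to have
`n` vertices. -/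
noncomputable def pairLaw (μ : PMF ℕ) (n : ℕ) : Measure (PT × PT) :=
  (condLaw μ n).prod (condLaw μ n)

/-- The smaller one of the two maximum degrees. -/
noncomputable def minHub (p : PT × PT) : ℕ := min (maxDeg p.1) (maxDeg p.2)

theorem result (μ : PMF ℕ) (hmean : ∑' k : ℕ, (k : ℝ≥0∞) * μ k = 1) (h0 : μ 0 ≠ 0)
    (α c : ℝ) (hα : 1 < α) (hα2 : α < 2) (hc : 0 < c)
    (htail : Tendsto (fun k : ℕ => (μ.toMeasure (Set.Ici k)).toReal * (k : ℝ) ^ α) atTop (𝓝 c)) :
    -- in probability, `LCS / M_n` tends to infinity along the `n` with `P (|τ| = n) ≥ n ^ (-K)`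
    (∀ (K : ℕ) (C : ℝ) (ε : ℝ≥0∞), 0 < ε → ∀ᶠ n : ℕ in atTop,
      ((n : ℝ≥0∞) ^ K)⁻¹ ≤ law μ {t | size t = n} →
        pairLaw μ n {p | (lcs p.1 p.2 : ℝ) < C * minHub p} ≤ ε) ∧
    -- there are infinitely many such `n` when `K = 3`
    (∃ᶠ n : ℕ in atTop, ((n : ℝ≥0∞) ^ 3)⁻¹ ≤ law μ {t | size t = n}) ∧
    -- `LCS / M_n` is not tight
    ¬ (∀ ε : ℝ≥0∞, 0 < ε → ∃ C : ℝ, ∀ n : ℕ, 2 ≤ n → law μ {t | size t = n} ≠ 0 →
      pairLaw μ n {p | C * minHub p < (lcs p.1 p.2 : ℝ)} ≤ ε) := by
  have hsum : ∑' k, μ k = 1 := μ.tsum_coe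
  have htl : ∀ k : ℕ, tl μ k = (μ.toMeasure (Set.Ici k)).toReal := by
    intro k
    rw [tl, PMF.toMeasure_apply (hs := measurableSet_Ici)]
    congr 1
    refine tsum_congr fun j => ?_
    by_cases h : k ≤ j
    · simp [h]
    · simp [h]
  have htail' : Tendsto (fun k : ℕ => tl μ k * (k : ℝ) ^ α) atTop (𝓝 c) := by
    refine htail.congr fun k => ?_
    rw [htl]
  exact ⟨fun K C ε hε => main_limit hsum hmean h0 α c hα hα2 hc htail' K C ε hε,
    frequently_good hsum hmean h0, not_tight hsum hmean h0 α c hα hα2 hc htail'⟩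

end Pool.Agent.Results.MP_8702f5_pr.SameLaw
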